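import Pool.Agent.H365.DL.Stm
import Pool.Agent.H365.Ext

/-!
# Property (T) is closed under extensions

The theorem is `Pool.Agent.H365.hasT_ext`.
-/

set_option autoImplicit false

namespace Pool.Agent.H365.DL

/-- **EXT.** -/
theorem t_EXT : S_EXT := fun _ _ N _ hN hQ => Pool.Agent.H365.hasT_ext N hN hQ

end Pool.Agent.H365.DL
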